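import Pool.Agent.Helper5.UN.Goals
import Pool.Agent.Helper29.BL.QSN

/-!
# Packet UN-GDET (MP_a41896_nt)
-/

set_option autoImplicit false

namespace Pool.Agent.Helper72.UN

open Pool.Agent.Helper29.BL Pool.Agent.Helper5.UN
open scoped Matrix

noncomputable section

variable {G : Type} [AddCommGroup G] {H : G → ℝ}

theorem polar_add_right (h : IsQuad H) (x y z : G) :
    polar' H x (y + z) = polar' H x y + polar' H x z := by
  rw [IsQuad.polar_comm x (y + z), h.polar_add, IsQuad.polar_comm y x, IsQuad.polar_comm z x]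

theorem polar_sum_left (h : IsQuad H) {n : ℕ} (m : Fin n → ℤ) (z : Fin n → G) (y : G) :
    polar' H (vz m z) y = ∑ k, (m k : ℝ) * polar' H (z k) y := by
  have h1 := map_sum (h.polarHom y) (fun k => m k • z k) Finset.univ
  have h2 : ∀ k, h.polarHom y (m k • z k) = (m k : ℝ) * polar' H (z k) y := by
    intro k
    rw [map_zsmul, zsmul_eq_mul]
    rfl
  rw [Finset.sum_congr rfl (fun k _ => h2 k)] at h1
  exact h1

theorem H_vz (h : IsQuad H) {n : ℕ} (m : Fin n → ℤ) (z : Fin n → G) :
    2 * H (vz m z) = ∑ k, ∑ l, (m k : ℝ) * (m l : ℝ) * polar' H (z k) (z l) := by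
  rw [← h.polar_self, polar_sum_left h]
  refine Finset.sum_congr rfl fun k _ => ?_
  rw [IsQuad.polar_comm, polar_sum_left h, Finset.mul_sum]
  refine Finset.sum_congr rfl fun l _ => ?_
  rw [IsQuad.polar_comm (z l) (z k)]
  ring

/-- the Gram matrix -/
def Gm (H : G → ℝ) {n : ℕ} (z : Fin n → G) (N : ℝ) : Matrix (Fin n) (Fin n) ℝ :=
  fun k l => polar' H (z k) (z l) / (2 * N)

theorem Gm_herm {n : ℕ} (z : Fin n → G) (N : ℝ) : (Gm H z N).IsHermitian := by
  ext k l
  rw [Matrix.conjTranspose_apply, star_trivial]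
  unfold Gm
  rw [IsQuad.polar_comm]

theorem Gm_int (h : IsQuad H) {n : ℕ} (z : Fin n → G) {N : ℝ} (hN : 0 < N) (m : Fin n → ℤ) :
    ∑ k, ∑ l, (m k : ℝ) * (m l : ℝ) * Gm H z N k l = H (vz m z) / N := by
  have h1 := H_vz h m z
  have h2 : ∑ k, ∑ l, (m k : ℝ) * (m l : ℝ) * Gm H z N k l =
      (∑ k, ∑ l, (m k : ℝ) * (m l : ℝ) * polar' H (z k) (z l)) / (2 * N) := by
    rw [Finset.sum_div]
    refine Finset.sum_congr rfl fun k _ => ?_
    rw [Finset.sum_div]
    refine Finset.sum_congr rfl fun l _ => ?_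
    unfold Gm
    ring
  rw [h2, ← h1]
  field_simp

theorem Gm_real (h : IsQuad H) {n : ℕ} (z : Fin n → G) {N : ℝ} (hN : 0 < N) (x : Fin n → ℝ) :
    0 ≤ ∑ k, ∑ l, x k * x l * Gm H z N k l := by
  have hcl : IsClosed {x : Fin n → ℝ | 0 ≤ ∑ k, ∑ l, x k * x l * Gm H z N k l} :=
    isClosed_le continuous_const (by fun_prop)
  have hd : DenseRange (Pi.map (fun _ : Fin n => ((↑) : ℚ → ℝ))) :=
    DenseRange.piMap fun _ => Rat.denseRange_cast
  refine hd.induction_on (p := fun x : Fin n → ℝ => 0 ≤ ∑ k, ∑ l, x k * x l * Gm H z N k l) x hcl ?_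
  intro q
  -- common denominator
  let D : ℕ := ∏ i, (q i).den
  have hD : (0 : ℝ) < (D : ℝ) := by
    have : 0 < D := Finset.prod_pos fun i _ => (q i).den_pos
    exact_mod_cast this
  have hm : ∀ i, ∃ m : ℤ, (m : ℝ) = (D : ℝ) * ((q i : ℚ) : ℝ) := by
    intro i
    obtain ⟨c, hc⟩ := Finset.dvd_prod_of_mem (fun i => (q i).den) (Finset.mem_univ i)
    refine ⟨(c : ℤ) * (q i).num, ?_⟩
    have h1 : (D : ℝ) = ((q i).den : ℝ) * (c : ℝ) := by
      have h0 : D = (q i).den * c := hc
      rw [h0]; push_cast; ring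
    have h2 : ((q i : ℚ) : ℝ) = ((q i).num : ℝ) / ((q i).den : ℝ) := Rat.cast_def (q i)
    have h3 : ((q i).den : ℝ) ≠ 0 := by exact_mod_cast (q i).den_pos.ne'
    rw [h1, h2]
    push_cast
    field_simp
  choose m hm using hm
  have h1 := Gm_int h z hN m
  have h2 : 0 ≤ H (vz m z) / N := div_nonneg (h.nonneg _) hN.le
  rw [← h1] at h2
  have h3 : ∑ k, ∑ l, (m k : ℝ) * (m l : ℝ) * Gm H z N k l =
      (D : ℝ) ^ 2 * ∑ k, ∑ l, ((q k : ℚ) : ℝ) * ((q l : ℚ) : ℝ) * Gm H z N k l := by
    rw [Finset.mul_sum]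
    refine Finset.sum_congr rfl fun k _ => ?_
    rw [Finset.mul_sum]
    refine Finset.sum_congr rfl fun l _ => ?_
    rw [hm, hm]
    ring
  rw [h3] at h2
  exact nonneg_of_mul_nonneg_right h2 (by positivity)

theorem Gm_psd (h : IsQuad H) {n : ℕ} (z : Fin n → G) {N : ℝ} (hN : 0 < N) :
    (Gm H z N).PosSemidef := by
  refine Matrix.PosSemidef.of_dotProduct_mulVec_nonneg (Gm_herm z N) fun x => ?_
  have h1 := Gm_real h z hN x
  have h2 : star x ⬝ᵥ ((Gm H z N) *ᵥ x) = ∑ k, ∑ l, x k * x l * Gm H z N k l := by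
    rw [star_trivial]
    unfold dotProduct Matrix.mulVec dotProduct
    refine Finset.sum_congr rfl fun k _ => ?_
    rw [Finset.mul_sum]
    refine Finset.sum_congr rfl fun l _ => ?_
    ring
  rw [h2]
  exact h1

theorem det_one_add {n : ℕ} {A : Matrix (Fin n) (Fin n) ℝ} (hA : A.IsHermitian) (θ : ℝ) :
    (1 + θ • A).det = ∏ i, (1 + θ * hA.eigenvalues i) := by
  by_cases hθ : θ = 0
  · rw [hθ]; simp
  have h1 : A.charpoly.eval (-θ⁻¹) = ∏ i, (-θ⁻¹ - hA.eigenvalues i) := by
    rw [hA.charpoly_eq, Polynomial.eval_prod]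
    refine Finset.prod_congr rfl fun i _ => ?_
    simp
  have h2 : A.charpoly.eval (-θ⁻¹) = (Matrix.scalar (Fin n) (-θ⁻¹) - A).det :=
    Matrix.eval_charpoly A (-θ⁻¹)
  have h3 : (1 + θ • A) = (-θ) • (Matrix.scalar (Fin n) (-θ⁻¹) - A) := by
    rw [smul_sub, Matrix.scalar_apply, ← Matrix.diagonal_smul]
    have : (-θ • fun _ : Fin n => -θ⁻¹) = 1 := by
      funext i
      simp [hθ]
    rw [this, neg_smul, sub_neg_eq_add]
    congr 1
  rw [h3, Matrix.det_smul, ← h2, h1, ← Finset.card_univ, ← Finset.prod_const,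
    ← Finset.prod_mul_distrib]
  refine Finset.prod_congr rfl fun i _ => ?_
  field_simp
  ring

/-- the row map -/
def rowHom (h : IsQuad H) {n : ℕ} (z : Fin n → G) (N : ℝ) : G →+ (Fin n → ℝ) where
  toFun x := fun l => polar' H x (z l) / (2 * N)
  map_zero' := by
    funext l
    have h1 : polar' H 0 (z l) = 0 := by
      have := h.polar_zsmul 0 1 (0 : G) (z l)
      simpa using this
    rw [h1, zero_div]; rfl
  map_add' x y := by
    funext l
    rw [h.polar_add, Pi.add_apply, add_div]

theorem rank_le (h : IsQuad H) {n s : ℕ} (z : Fin n → G)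
    (hs : Set.finrank ℤ (Set.range z) ≤ s) (N : ℝ) : (Gm H z N).rank ≤ s := by
  classical
  obtain ⟨S, hS, hmax⟩ := exists_maximal_linearIndepOn ℤ z
  -- the number of elements of `S`
  have hcard : S.toFinset.card ≤ s := by
    refine le_trans ?_ hs
    have hfin : Module.Finite ℤ (Submodule.span ℤ (Set.range z)) :=
      Module.Finite.span_of_finite ℤ (Set.finite_range z)
    have h1 : LinearIndependent ℤ (fun i : S =>
        (⟨z i, Submodule.subset_span ⟨i, rfl⟩⟩ : Submodule.span ℤ (Set.range z))) := by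
      refine LinearIndependent.of_comp (Submodule.subtype _) ?_
      exact hS
    have h2 := h1.fintype_card_le_finrank
    rw [Set.toFinset_card]
    exact h2
  rw [Matrix.rank_eq_finrank_span_row]
  have hsub : Submodule.span ℝ (Set.range (Gm H z N).row) ≤
      Submodule.span ℝ ((S.toFinset.image (Gm H z N).row : Finset (Fin n → ℝ)) : Set (Fin n → ℝ)) := by
    rw [Submodule.span_le]
    rintro _ ⟨i, rfl⟩
    have hrow : ∀ i, (Gm H z N).row i = rowHom h z N (z i) := fun i => rfl
    by_cases hi : i ∈ S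
    · refine Submodule.subset_span ?_
      rw [Finset.coe_image]
      exact ⟨i, by simpa using hi, rfl⟩
    · obtain ⟨a, ha, hai⟩ := hmax i hi
      have key : ∀ x ∈ Submodule.span ℤ (z '' S), rowHom h z N x ∈
          Submodule.span ℝ ((S.toFinset.image (Gm H z N).row : Finset (Fin n → ℝ)) :
            Set (Fin n → ℝ)) := by
        intro x hx
        induction hx using Submodule.span_induction with
        | mem x hx =>
          obtain ⟨j, hj, rfl⟩ := hx
          refine Submodule.subset_span ?_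
          rw [Finset.coe_image]
          exact ⟨j, by simpa using hj, rfl⟩
        | zero => rw [map_zero]; exact Submodule.zero_mem _
        | add x y _ _ hx hy => rw [map_add]; exact Submodule.add_mem _ hx hy
        | smul c x _ hx =>
          rw [map_zsmul, ← Int.cast_smul_eq_zsmul ℝ]
          exact Submodule.smul_mem _ _ hx
      have h1 := key _ hai
      rw [map_zsmul, ← Int.cast_smul_eq_zsmul ℝ, ← hrow] at h1
      have h2 := Submodule.smul_mem _ ((a : ℝ)⁻¹) h1
      have ha' : (a : ℝ) ≠ 0 := by exact_mod_cast ha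
      rwa [smul_smul, inv_mul_cancel₀ ha', one_smul] at h2
  refine (Submodule.finrank_mono hsub).trans ?_
  refine (finrank_span_finset_le_card _).trans ?_
  exact Finset.card_image_le.trans hcard

theorem gGDET : G_GDET := by
  intro G _ H hH n s z hs N θ hN hsum hθ
  have hpsd := Gm_psd hH z hN
  have hherm := hpsd.isHermitian
  refine ⟨1 + θ • Gm H z N, ?_, ?_, ?_⟩
  · exact Matrix.PosDef.add_posSemidef Matrix.PosDef.one (hpsd.smul hθ)
  · rw [det_one_add hherm]
    have h0 : ∀ i, 0 ≤ hherm.eigenvalues i := hpsd.eigenvalues_nonneg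
    have htr : ∑ i, hherm.eigenvalues i ≤ 1 := by
      have h1 := hherm.trace_eq_sum_eigenvalues
      have h2 : (Gm H z N).trace = (∑ i, H (z i)) / N := by
        rw [Matrix.trace, Finset.sum_div]
        refine Finset.sum_congr rfl fun i _ => ?_
        rw [Matrix.diag_apply]
        unfold Gm
        rw [hH.polar_self]
        field_simp
      rw [h2] at h1
      have h3 : (∑ i, H (z i)) / N ≤ 1 := by
        rw [div_le_one hN]; exact hsum
      rw [h1] at h3
      simpa using h3
    have hle : ∀ i, hherm.eigenvalues i ≤ 1 := fun i =>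
      (Finset.single_le_sum (fun j _ => h0 j) (Finset.mem_univ i)).trans htr
    have hrk := hherm.rank_eq_card_non_zero_eigs
    have hrs := rank_le hH z hs N
    have h1 : ∏ i, (1 + θ * hherm.eigenvalues i) ≤
        ∏ i, (if hherm.eigenvalues i ≠ 0 then (1 + θ) else 1) := by
      refine Finset.prod_le_prod (fun i _ => ?_) (fun i _ => ?_)
      · have := mul_nonneg hθ (h0 i)
        linarith
      · by_cases hi : hherm.eigenvalues i = 0
        · rw [if_neg (by simpa using hi), hi, mul_zero, add_zero]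
        · rw [if_pos hi]
          have := mul_le_mul_of_nonneg_left (hle i) hθ
          linarith
    refine h1.trans ?_
    rw [Finset.prod_ite, Finset.prod_const_one, mul_one, Finset.prod_const]
    refine pow_le_pow_right₀ (by linarith) ?_
    rw [Fintype.card_subtype] at hrk
    rw [← hrk]
    exact hrs
  · intro m
    have h1 := Gm_int hH z hN m
    have h2 : ∑ k, ∑ l, (1 + θ • Gm H z N) k l * (m k : ℝ) * (m l : ℝ) =
        ∑ k, (m k : ℝ) ^ 2 + θ * ∑ k, ∑ l, (m k : ℝ) * (m l : ℝ) * Gm H z N k l := by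
      rw [Finset.mul_sum, ← Finset.sum_add_distrib]
      refine Finset.sum_congr rfl fun k _ => ?_
      rw [Finset.mul_sum]
      have h3 : ∀ l, (1 + θ • Gm H z N) k l * (m k : ℝ) * (m l : ℝ) =
          (if k = l then (m k : ℝ) * (m l : ℝ) else 0) +
            θ * ((m k : ℝ) * (m l : ℝ) * Gm H z N k l) := by
        intro l
        rw [Matrix.add_apply, Matrix.smul_apply, Matrix.one_apply, smul_eq_mul]
        split_ifs <;> ring
      rw [Finset.sum_congr rfl (fun l _ => h3 l), Finset.sum_add_distrib,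
        Finset.sum_ite_eq]
      simp
      ring
    rw [h2, h1, mul_div_assoc]

end

end Pool.Agent.Helper72.UN
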